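import Pool.Agent.H79.GT.Targets

/-!
# The energy of a layer is controlled by the mass of its support
-/

set_option autoImplicit false

namespace Pool.Agent.H36.BQ

open MeasureTheory Set Filter Topology Pool.Agent.H79.GT Pool.Agent.H44.DU

variable {n : ℕ} (S : Surf n)

lemma measurableSet_Es (t : ℝ) (θ : Side n → ℝ → ℝ) (hθ : ∀ s, Measurable (θ s)) (i : Fin n) :
    MeasurableSet (Es S t θ i) := by
  have h : Es S t θ i = ⋃ s : Side n, {x | s.1 = i} ∩ ((Ioo (xi t (S.P s)) (xi t (S.Q s)) ∪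
      Ioo (xi t (S.Q s)) (xi t (S.P s))) ∩ {x | θ s x < 1}) := by
    ext x
    simp only [Es, Surf.InI, Surf.InJ, mem_iUnion]
    rfl
  rw [h]
  refine MeasurableSet.iUnion fun s => ?_
  exact (MeasurableSet.const _).inter ((measurableSet_Ioo.union measurableSet_Ioo).inter
    (measurableSet_lt (hθ s) measurable_const))

theorem pf_VB (hw : T_WK) (he : T_EQV) (hc : T_CH) (hp : T_PART) : T_VB := by
  intro n S t f hf hinc δ hδ
  have hE := (he n S t f hf hinc).1
  have hpart := (hp n S t).2.2.1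
  -- the functions
  have hmeas : ∀ i, Measurable (fun x => f i x ^ 2 * ch S t i x) := by
    intro i
    have h1 := (hc n S t i).2.2.2.2.2.2.2.1
    exact ((hf.meas i).pow_const 2).mul h1
  have hnn : ∀ i x, 0 ≤ f i x ^ 2 * ch S t i x := by
    intro i x
    exact mul_nonneg (sq_nonneg _) ((hc n S t i).2.2.2.2.2.1 x)
  have hint : ∀ i, IntegrableOn (fun x => f i x ^ 2 * ch S t i x)
      (Ioo (S.xl t i) (S.xr t i)) := by
    intro i
    obtain ⟨-, -, -, -, -, hch0, -, hchm, -, K, htop, hbot⟩ := hc n S t i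
    have hcont : ContinuousOn (ch S t i) (Icc (S.xl t i) (S.xr t i)) :=
      htop.continuousOn.sub hbot.continuousOn
    obtain ⟨C, hC⟩ := isCompact_Icc.exists_bound_of_continuousOn hcont
    apply Integrable.mul_bdd (c := C) (hf.sq i) hchm.aestronglyMeasurable
    rw [ae_restrict_iff' measurableSet_Ioo]
    exact Eventually.of_forall fun x hx => hC x ⟨hx.1.le, hx.2.le⟩
  have hEm : ∀ (r L : ℝ) (θ : Side n → ℝ → ℝ), Lay S t f r L θ → ∀ i,
      MeasurableSet (Es S t θ i) := fun r L θ h i => measurableSet_Es S t θ h.meas i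
  -- the tails
  have htail : ∀ i, ∀ᶠ N : ℕ in atTop, ∫ x in Ioo (S.xl t i) (S.xr t i) ∩
      {x | (N : ℝ) < f i x * ch S t i x}, f i x ^ 2 * ch S t i x ≤ δ / 22 := by
    intro i
    have hchm := (hc n S t i).2.2.2.2.2.2.2.1
    have h1 := tendsto_setIntegral_of_antitone (μ := (volume : Measure ℝ))
      (f := fun x => f i x ^ 2 * ch S t i x)
      (s := fun N : ℕ => Ioo (S.xl t i) (S.xr t i) ∩ {x | (N : ℝ) < f i x * ch S t i x})
      (fun N => measurableSet_Ioo.inter (measurableSet_lt measurable_const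
        ((hf.meas i).mul hchm)))
      (by
        intro N M hNM x hx
        refine ⟨hx.1, ?_⟩
        have h2 : (M : ℝ) < f i x * ch S t i x := hx.2
        have h3 : (N : ℝ) ≤ M := by exact_mod_cast hNM
        exact h3.trans_lt h2)
      ⟨0, (hint i).mono_set inter_subset_left⟩
    have h2 : (⋂ N : ℕ, Ioo (S.xl t i) (S.xr t i) ∩ {x | (N : ℝ) < f i x * ch S t i x}) =
        ∅ := by
      rw [eq_empty_iff_forall_notMem]
      intro x hx
      obtain ⟨N, hN⟩ := exists_nat_gt (f i x * ch S t i x)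
      have h3 := (mem_iInter.1 hx N).2
      exact lt_asymm hN h3
    rw [h2, setIntegral_empty] at h1
    exact (h1.eventually_lt_const (by positivity)).mono fun N h => h.le
  obtain ⟨N, hN⟩ := (eventually_all.2 htail).exists
  -- the radii
  have hrad : ∀ s : Side n, ∀ᶠ r₀ : ℝ in 𝓝[>] 0, ∀ r, 0 < r → r ≤ r₀ → ∀ E : Set ℝ,
      MeasurableSet E → ∫ x in Ioo (le S t s) (ri S t s), f s.1 x ^ 2 * ch S t s.1 x *
        fa (Rd S t f r s) (E.indicator 1) x ≤
        11 * (∫ x in Ioo (le S t s) (ri S t s) ∩ E, f s.1 x ^ 2 * ch S t s.1 x) + δ / 2 := by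
    intro s
    rcases lt_or_ge (le S t s) (ri S t s) with hlt | hge
    · have hsub : Ioo (le S t s) (ri S t s) ⊆ Ioo (S.xl t s.1) (S.xr t s.1) :=
        Ioo_subset_Ioo (hpart s).1 (hpart s).2.2
      obtain ⟨r₁, hr₁, h⟩ := hw _ _ _ _ (hE s hlt) _ (hmeas s.1) (hnn s.1)
        ((hint s.1).mono_set hsub) (δ / 2) (by positivity)
      filter_upwards [Ioc_mem_nhdsGT hr₁] with r₀ hr₀ r hr hr' E hEs
      exact (h r hr (hr'.trans hr₀.2) E hEs).2
    · refine Eventually.of_forall fun r₀ r _ _ E _ => ?_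
      rw [Ioo_eq_empty (not_lt.2 hge), empty_inter, setIntegral_empty, setIntegral_empty]
      linarith
  obtain ⟨r₀, hr₀, hr₀'⟩ := ((eventually_all.2 hrad).and self_mem_nhdsWithin).exists
  refine ⟨r₀, hr₀', N + 1, by positivity, ?_⟩
  intro r L hr hrr hL θ hθ hsum s
  have hLN : (N : ℝ) < L := by linarith
  have hchm := (hc n S t s.1).2.2.2.2.2.2.2.1
  have hch0 := (hc n S t s.1).2.2.2.2.2.1
  have hEs := hEm r L θ hθ s.1
  refine (hr₀ s r hr hrr (Es S t θ s.1) hEs).trans ?_
  have hsub : Ioo (le S t s) (ri S t s) ⊆ Ioo (S.xl t s.1) (S.xr t s.1) :=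
    Ioo_subset_Ioo (hpart s).1 (hpart s).2.2
  -- the integral of `f ^ 2 * ch` over the set
  have h1 : ∫ x in Ioo (le S t s) (ri S t s) ∩ Es S t θ s.1, f s.1 x ^ 2 * ch S t s.1 x ≤
      ∫ x in Ioo (S.xl t s.1) (S.xr t s.1) ∩ Es S t θ s.1, f s.1 x ^ 2 * ch S t s.1 x := by
    apply setIntegral_mono_set ((hint s.1).mono_set inter_subset_left)
    · exact Eventually.of_forall fun x => hnn s.1 x
    · exact Eventually.of_forall (inter_subset_inter_left _ hsub)
  have hmin : ∀ x, 0 ≤ min (f s.1 x * ch S t s.1 x) L * f s.1 x := by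
    intro x
    apply mul_nonneg (le_min (mul_nonneg (hf.nonneg _ _) (hch0 x)) _) (hf.nonneg _ _)
    exact (Nat.cast_nonneg N).trans hLN.le
  have hminle : ∀ x, min (f s.1 x * ch S t s.1 x) L * f s.1 x ≤
      f s.1 x ^ 2 * ch S t s.1 x := by
    intro x
    have h2 := mul_le_mul_of_nonneg_right (min_le_left (f s.1 x * ch S t s.1 x) L)
      (hf.nonneg s.1 x)
    refine h2.trans (le_of_eq ?_)
    ring
  have hminm : Measurable (fun x => min (f s.1 x * ch S t s.1 x) L * f s.1 x) :=
    (((hf.meas _).mul hchm).min measurable_const).mul (hf.meas _)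
  have hmini : IntegrableOn (fun x => min (f s.1 x * ch S t s.1 x) L * f s.1 x)
      (Ioo (S.xl t s.1) (S.xr t s.1)) := by
    refine Integrable.mono (hint s.1) hminm.aestronglyMeasurable (Eventually.of_forall ?_)
    intro x
    rw [Real.norm_of_nonneg (hmin x), Real.norm_of_nonneg (hnn s.1 x)]
    exact hminle x
  have hT : MeasurableSet {x | (N : ℝ) < f s.1 x * ch S t s.1 x} :=
    measurableSet_lt measurable_const ((hf.meas _).mul hchm)
  have h2 : ∫ x in Ioo (S.xl t s.1) (S.xr t s.1) ∩ Es S t θ s.1, f s.1 x ^ 2 * ch S t s.1 x ≤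
      (∫ x in Ioo (S.xl t s.1) (S.xr t s.1) ∩ Es S t θ s.1,
        min (f s.1 x * ch S t s.1 x) L * f s.1 x) +
      ∫ x in Ioo (S.xl t s.1) (S.xr t s.1) ∩ Es S t θ s.1,
        {x | (N : ℝ) < f s.1 x * ch S t s.1 x}.indicator
          (fun x => f s.1 x ^ 2 * ch S t s.1 x) x := by
    have i1 := hmini.mono_set (inter_subset_left (s := Ioo (S.xl t s.1) (S.xr t s.1))
      (t := Es S t θ s.1))
    have i2 := (hint s.1).mono_set (inter_subset_left (s := Ioo (S.xl t s.1) (S.xr t s.1))
      (t := Es S t θ s.1))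
    rw [← integral_add i1 (i2.indicator hT)]
    apply integral_mono i2 (i1.add (i2.indicator hT))
    intro x
    by_cases hx : (N : ℝ) < f s.1 x * ch S t s.1 x
    · have : x ∈ {x | (N : ℝ) < f s.1 x * ch S t s.1 x} := hx
      simp only [Pi.add_apply, indicator_of_mem this]
      linarith [hmin x]
    · have : x ∉ {x | (N : ℝ) < f s.1 x * ch S t s.1 x} := hx
      simp only [Pi.add_apply, indicator_of_notMem this, add_zero]
      rw [min_eq_left ((not_lt.1 hx).trans hLN.le)]
      apply le_of_eq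
      ring
  have h3 : ∫ x in Ioo (S.xl t s.1) (S.xr t s.1) ∩ Es S t θ s.1,
        {x | (N : ℝ) < f s.1 x * ch S t s.1 x}.indicator
          (fun x => f s.1 x ^ 2 * ch S t s.1 x) x ≤ δ / 22 := by
    rw [setIntegral_indicator hT]
    refine le_trans ?_ (hN s.1)
    apply setIntegral_mono_set ((hint s.1).mono_set inter_subset_left)
    · exact Eventually.of_forall fun x => hnn s.1 x
    · exact Eventually.of_forall (inter_subset_inter_left _ inter_subset_left)
  have h4 : ∫ x in Ioo (S.xl t s.1) (S.xr t s.1) ∩ Es S t θ s.1,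
        min (f s.1 x * ch S t s.1 x) L * f s.1 x ≤ 100 * n * L * r := by
    refine le_trans ?_ hsum
    refine Finset.single_le_sum (f := fun i => ∫ x in Ioo (S.xl t i) (S.xr t i) ∩ Es S t θ i,
      min (f i x * ch S t i x) L * f i x) (fun i _ => ?_) (Finset.mem_univ s.1)
    apply integral_nonneg
    intro x
    apply mul_nonneg (le_min (mul_nonneg (hf.nonneg _ _) ((hc n S t i).2.2.2.2.2.1 x)) _)
      (hf.nonneg _ _)
    exact (Nat.cast_nonneg N).trans hLN.le
  linarith

end Pool.Agent.H36.BQ
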